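import Pool.Agent.H717.PM.Stm

/-!
# Few trees suffice (AND)
-/

set_option autoImplicit false

namespace Pool.Agent.H402.PM

open Pool.Agent.NPC Pool.Agent.H622R2 Pool.Agent.H717.PM
open Pool.Agent.R39.PCG (WTree IsInterval IsOrPCG IsAndPCG IsIntervalPCG)

/-- On a finite set of numbers an interval may be replaced by a closed interval (or by the empty
interval `[1, 0]`). -/
theorem interval_min_max {I : Set ℝ} (hI : IsInterval I) (R : Finset ℝ) :
    ∃ lo hi : ℝ, 0 ≤ lo ∧ 0 ≤ hi ∧ ∀ r ∈ R, (r ∈ I ↔ lo ≤ r ∧ r ≤ hi) := by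
  classical
  by_cases h : (R.filter (fun r => r ∈ I)).Nonempty
  · refine ⟨(R.filter (fun r => r ∈ I)).min' h, (R.filter (fun r => r ∈ I)).max' h, ?_, ?_, ?_⟩
    · exact hI.2 (Finset.mem_filter.1 (Finset.min'_mem _ h)).2
    · exact hI.2 (Finset.mem_filter.1 (Finset.max'_mem _ h)).2
    · intro r hr
      constructor
      · intro hrI
        have hm : r ∈ R.filter (fun r => r ∈ I) := Finset.mem_filter.2 ⟨hr, hrI⟩
        exact ⟨Finset.min'_le _ _ hm, Finset.le_max' _ _ hm⟩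
      · intro h2
        exact hI.1.out (Finset.mem_filter.1 (Finset.min'_mem _ h)).2
          (Finset.mem_filter.1 (Finset.max'_mem _ h)).2 h2
  · refine ⟨1, 0, zero_le_one, le_rfl, fun r hr => ⟨fun hrI => ?_, fun h2 => ?_⟩⟩
    · exact (h ⟨r, Finset.mem_filter.2 ⟨hr, hrI⟩⟩).elim
    · exact (not_le.2 zero_lt_one (h2.1.trans h2.2)).elim

/-- Enumeration of a finite set of indices. -/
theorem enum_finset {K : ℕ} (i0 : Fin K) (S : Finset (Fin K)) :
    ∃ e : ℕ → Fin K, ∀ s ∈ S, ∃ j < S.card, e j = s := by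
  refine ⟨fun j => S.toList.getD j i0, fun s hs => ?_⟩
  obtain ⟨j, hj, h⟩ := List.mem_iff_getElem.1 (Finset.mem_toList.2 hs)
  refine ⟨j, by rwa [Finset.length_toList] at hj, ?_⟩
  show S.toList.getD j i0 = s
  rw [List.getD_eq_getElem _ _ hj, h]

theorem t_selAnd (h : S_bun') : S_selAnd := by
  classical
  rintro ⟨M, K⟩ ⟨hK, τ, J, hJ, hadj⟩
  have hK' : 0 < K := hK
  let i0 : Fin K := ⟨0, hK'⟩
  have hn := (h M.length (τ i0)).1
  refine ⟨hn, ?_⟩
  choose D0 hTM hD0 using fun i => (h M.length (τ i)).2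
  have hc : ∀ p : Fin M.length × Fin M.length, ∃ i : Fin K,
      p.1 ≠ p.2 → ¬ (matGraph M).Adj p.1 p.2 → (τ i).d p.1 p.2 ∉ J i := by
    intro p
    by_cases hp : p.1 ≠ p.2 ∧ ¬ (matGraph M).Adj p.1 p.2
    · obtain ⟨i, hi⟩ := not_forall.1 ((not_congr (hadj p.1 p.2 hp.1)).1 hp.2)
      exact ⟨i, fun _ _ => hi⟩
    · exact ⟨i0, fun h1 h2 => (hp ⟨h1, h2⟩).elim⟩
  choose c hc using hc
  let S : Finset (Fin K) := insert i0 (Finset.univ.image c)
  obtain ⟨e, he⟩ := enum_finset i0 S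
  have hS1 : 1 ≤ S.card := Finset.card_pos.2 ⟨i0, Finset.mem_insert_self _ _⟩
  have hS2 : S.card ≤ K := (Finset.card_le_univ _).trans_eq (Fintype.card_fin K)
  have hS3 : S.card ≤ M.length * M.length + 1 := by
    calc S.card ≤ (Finset.univ.image c).card + 1 := Finset.card_insert_le _ _
      _ ≤ (Finset.univ : Finset (Fin M.length × Fin M.length)).card + 1 :=
          Nat.add_le_add_right Finset.card_image_le 1
      _ = M.length * M.length + 1 := by rw [Finset.card_univ, Fintype.card_prod, Fintype.card_fin]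
  choose lo hi hlo hhi hlh using fun i => interval_min_max (hJ i)
    (Finset.univ.image (fun p : Fin M.length × Fin M.length => (τ i).d p.1 p.2))
  refine ⟨S.card, hS1, hS2, hS3, fun j => D0 (e j), fun j => lo (e j), fun j => hi (e j),
    fun j _ => hTM (e j), fun j _ => ⟨hlo _, hhi _⟩, ?_⟩
  intro x hx y hy hxy
  have hxy' : (⟨x, hx⟩ : Fin M.length) ≠ ⟨y, hy⟩ := fun h => hxy (Fin.mk.inj h)
  have key : ∀ i, (τ i).d ⟨x, hx⟩ ⟨y, hy⟩ ∈ J i ↔ lo i ≤ D0 i x y ∧ D0 i x y ≤ hi i := by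
    intro i
    rw [hlh i _ (Finset.mem_image.2 ⟨(⟨x, hx⟩, ⟨y, hy⟩), Finset.mem_univ _, rfl⟩), hD0 i]
  have hA : adjM M x y = true ↔ (matGraph M).Adj ⟨x, hx⟩ ⟨y, hy⟩ := by
    unfold adjM
    rw [Bool.or_eq_true]
    exact ⟨fun h1 => ⟨hxy', h1⟩, fun h1 => h1.2⟩
  rw [hA]
  constructor
  · intro h1 j _
    exact (key (e j)).1 ((hadj _ _ hxy').1 h1 (e j))
  · intro h1
    by_contra h2
    obtain ⟨j, hj, hje⟩ := he (c (⟨x, hx⟩, ⟨y, hy⟩))
      (Finset.mem_insert_of_mem (Finset.mem_image_of_mem _ (Finset.mem_univ _)))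
    refine hc (⟨x, hx⟩, ⟨y, hy⟩) hxy' h2 ?_
    rw [← hje]
    exact (key (e j)).2 (h1 j hj)

end Pool.Agent.H402.PM
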